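import Mathlib

set_option autoImplicit false

open AlgebraicGeometry CategoryTheory CategoryTheory.Limits Opposite TopologicalSpace

universe u

namespace Pool.Agent.Helper64.OneCyc

/-- The functor sending a commutative ring to its group of units (written additively). -/
noncomputable def unitsFun : CommRingCat.{u} ⥤ AddCommGrpCat.{u} :=
  forget₂ CommRingCat CommMonCat ⋙ CommMonCat.units ⋙ CommGrpCat.toAddCommGrp

/-- The functor sending a commutative ring to its additive group. -/
noncomputable def addFun : CommRingCat.{u} ⥤ AddCommGrpCat.{u} :=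
  forget₂ CommRingCat RingCat ⋙ forget₂ RingCat AddCommGrpCat

instance : PreservesLimits (unitsFun.{u}) := by
  unfold unitsFun
  have h1 : PreservesLimits (forget₂ CommRingCat.{u} CommMonCat.{u}) := inferInstance
  have h2 : PreservesLimits (CommMonCat.units.{u}) :=
    CommGrpCat.forget₂CommMonAdj.rightAdjoint_preservesLimits
  have h3 : PreservesLimits (CommGrpCat.toAddCommGrp.{u}) := by
    have : CommGrpCat.toAddCommGrp.{u}.IsEquivalence :=
      commGroupAddCommGroupEquivalence.isEquivalence_functor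
    infer_instance
  infer_instance

instance : PreservesLimits (addFun.{u}) := by
  unfold addFun; infer_instance

section

variable (k : Type u) [Field k]

/-- The ring `A/(tⁿ)`, where `A = k[[t]]`. -/
abbrev ThickRing (n : ℕ) : Type u :=
  PowerSeries k ⧸ Ideal.span {(PowerSeries.X : PowerSeries k) ^ n}

/-- The morphism `Spec A/(tⁿ) ⟶ Spec k`. -/
noncomputable def thickBase (n : ℕ) :
    Spec (CommRingCat.of (ThickRing k n)) ⟶ Spec (CommRingCat.of k) :=
  Spec.map (CommRingCat.ofHom (algebraMap k (ThickRing k n)))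

/-- The quotient map `A/(tⁿ⁺¹) → A/(tⁿ)`. -/
noncomputable def thickQuot (n : ℕ) : ThickRing k (n + 1) →+* ThickRing k n :=
  Ideal.Quotient.factor (by
    rw [Ideal.span_singleton_le_span_singleton]
    exact pow_dvd_pow _ (Nat.le_succ n))

end

variable {k : Type u} [Field k] {C : Scheme.{u}} (f : C ⟶ Spec (CommRingCat.of k))

/-- The thickening `Xₙ = C ×ₖ Spec A/(tⁿ) = X ×_A Spec A/(tⁿ)`, where `X = C ×ₖ Spec A`. -/
noncomputable def Thick (n : ℕ) : Scheme.{u} := pullback f (thickBase k n)

/-- The projection `Xₙ ⟶ C`. -/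
noncomputable def thickFst (n : ℕ) : Thick f n ⟶ C := pullback.fst f (thickBase k n)

/-- The closed immersion `Xₙ ⟶ Xₙ₊₁`. -/
noncomputable def thickIncl (n : ℕ) : Thick f n ⟶ Thick f (n + 1) :=
  pullback.map f (thickBase k n) f (thickBase k (n + 1)) (𝟙 C)
    (Spec.map (CommRingCat.ofHom (thickQuot k n))) (𝟙 _) (by simp) (by
      unfold thickBase
      rw [← Spec.map_comp, Category.comp_id]
      congr 1)

theorem thickIncl_fst (n : ℕ) : thickIncl f n ≫ thickFst f (n + 1) = thickFst f n := by
  exact (pullback.lift_fst _ _ _).trans (Category.comp_id _)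

/-- The structure sheaf of `Xₙ`, as a sheaf of rings on the topological space of `C`. -/
noncomputable def thickSheaf (n : ℕ) : TopCat.Sheaf CommRingCat.{u} C :=
  (TopCat.Sheaf.pushforward _ (thickFst f n).base).obj (Thick f n).sheaf

/-- The restriction map of structure sheaves from `Xₙ₊₁` to `Xₙ`. -/
noncomputable def thickRes (n : ℕ) : thickSheaf f (n + 1) ⟶ thickSheaf f n where
  hom :=
    { app := fun U => (thickIncl f n).appLE (thickFst f (n + 1) ⁻¹ᵁ U.unop)
        (thickFst f n ⁻¹ᵁ U.unop) (by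
          rw [← Scheme.Hom.comp_preimage, thickIncl_fst])
      naturality := fun U V i => by
        show (Thick f (n + 1)).presheaf.map _ ≫ _ = _ ≫ (Thick f n).presheaf.map _
        rw [Scheme.Hom.map_appLE, Scheme.Hom.appLE_map] }

/-- The sheaf `𝒦ᴹ₁ = 𝒪*` of `Xₙ`, as an abelian sheaf on the topological space of `C`. -/
noncomputable def unitSheaf (n : ℕ) :
    Sheaf (Opens.grothendieckTopology C) AddCommGrpCat.{u} :=
  (sheafCompose (Opens.grothendieckTopology C) unitsFun).obj (thickSheaf f n)

/-- The restriction map `𝒪*_{Xₙ₊₁} → 𝒪*_{Xₙ}`. -/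
noncomputable def unitRes (n : ℕ) : unitSheaf f (n + 1) ⟶ unitSheaf f n :=
  (sheafCompose (Opens.grothendieckTopology C) unitsFun).map (thickRes f n)

/-- The additive structure sheaf of `C`. -/
noncomputable def addSheaf (C : Scheme.{u}) :
    Sheaf (Opens.grothendieckTopology C) AddCommGrpCat.{u} :=
  (sheafCompose (Opens.grothendieckTopology C) addFun).obj C.sheaf

/-- `H¹(C, 𝒪_C)`. -/
abbrev HOne (C : Scheme.{u}) : Type u := Sheaf.H (addSheaf C) 1

/-- `H¹(X₁, 𝒦ᴹ_{1,Xₙ})`. -/
abbrev HUnits (n : ℕ) : Type u := Sheaf.H (unitSheaf f n) 1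

/-- The restriction map `H¹(X₁, 𝒦ᴹ_{1,Xₙ₊₁}) → H¹(X₁, 𝒦ᴹ_{1,Xₙ})`. -/
noncomputable def hRes (n : ℕ) : HUnits f (n + 1) →+ HUnits f n := Sheaf.H.map (unitRes f n) 1

end Pool.Agent.Helper64.OneCyc
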