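import Mathlib

set_option autoImplicit false

namespace Pool.Agent.Helper64.OneCyc

/-- `A` is the truncated polynomial ring `B[t]/(t^(m+1))`: every element of `A` is uniquely
`∑ c(b_i) t^i`, `i ≤ m`, and `t^(m+1) = 0`. -/
structure Trunc (B A : Type*) [CommRing B] [CommRing A] (m : ℕ) where
  c : B →+* A
  t : A
  tz : t ^ (m + 1) = 0
  bij : Function.Bijective (fun b : Fin (m + 1) → B => ∑ i, c (b i) * t ^ (i : ℕ))

variable {B A : Type*} [CommRing B] [CommRing A] {m : ℕ} (T : Trunc B A m)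

namespace Trunc

def mk' (b : Fin (m + 1) → B) : A := ∑ i, T.c (b i) * T.t ^ (i : ℕ)

noncomputable def co (a : A) : Fin (m + 1) → B := (Equiv.ofBijective _ T.bij).symm a

theorem mk_co (a : A) : T.mk' (T.co a) = a := (Equiv.ofBijective _ T.bij).apply_symm_apply a

theorem co_mk (b : Fin (m + 1) → B) : T.co (T.mk' b) = b :=
  (Equiv.ofBijective _ T.bij).symm_apply_apply b

theorem mk_inj {b b' : Fin (m + 1) → B} (h : T.mk' b = T.mk' b') : b = b' := by
  rw [← T.co_mk b, h, T.co_mk]

theorem mk_add (b b' : Fin (m + 1) → B) : T.mk' (b + b') = T.mk' b + T.mk' b' := by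
  simp only [mk', Pi.add_apply, map_add, add_mul, Finset.sum_add_distrib]

theorem co_add (a a' : A) : T.co (a + a') = T.co a + T.co a' := by
  apply T.mk_inj
  rw [T.mk_add, T.mk_co, T.mk_co, T.mk_co]

theorem t_pow {i : ℕ} (hi : m < i) : T.t ^ i = 0 := pow_eq_zero_of_le hi T.tz

theorem co_mono (b : B) (i : Fin (m + 1)) : T.co (T.c b * T.t ^ (i : ℕ)) = Pi.single i b := by
  apply T.mk_inj
  rw [T.mk_co]
  unfold mk'
  rw [Finset.sum_eq_single i]
  · simp
  · intro j _ hj
    simp [Pi.single_eq_of_ne hj]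
  · intro h; exact absurd (Finset.mem_univ _) h

/-- The Euler derivation `t d/dt`. -/
noncomputable def th (a : A) : A := T.mk' (fun i => ((i : ℕ) : B) * T.co a i)

theorem th_add (a a' : A) : T.th (a + a') = T.th a + T.th a' := by
  unfold th
  rw [← T.mk_add]
  congr 1
  funext i
  rw [T.co_add]
  simp [mul_add]

theorem th_mono (b : B) (i : ℕ) : T.th (T.c b * T.t ^ i) = (i : A) * (T.c b * T.t ^ i) := by
  rcases lt_or_ge m i with h | h
  · rw [T.t_pow h, mul_zero, mul_zero]
    unfold th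
    have : T.co 0 = 0 := by
      apply T.mk_inj; rw [T.mk_co]; simp [mk']
    rw [this]
    simp [mk']
  · have e := T.co_mono b ⟨i, by omega⟩
    simp only at e
    unfold th
    rw [e]
    unfold mk'
    rw [Finset.sum_eq_single ⟨i, by omega⟩]
    · simp [mul_assoc]
    · intro j _ hj
      simp [Pi.single_eq_of_ne hj]
    · intro h; exact absurd (Finset.mem_univ _) h

theorem th_sum {ι : Type*} (s : Finset ι) (f : ι → A) :
    T.th (∑ i ∈ s, f i) = ∑ i ∈ s, T.th (f i) := by
  classical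
  induction s using Finset.induction_on with
  | empty =>
    simp only [Finset.sum_empty]
    have := T.th_mono 0 0
    simpa using this
  | insert i s hi ih => rw [Finset.sum_insert hi, Finset.sum_insert hi, T.th_add, ih]

theorem th_mul (a a' : A) : T.th (a * a') = T.th a * a' + a * T.th a' := by
  have key : ∀ (x y : Fin (m + 1) → B), T.th (T.mk' x * T.mk' y)
      = T.th (T.mk' x) * T.mk' y + T.mk' x * T.th (T.mk' y) := by
    intro x y
    have e1 : T.mk' x * T.mk' y
        = ∑ i, ∑ j, T.c (x i * y j) * T.t ^ ((i : ℕ) + (j : ℕ)) := by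
      unfold mk'
      rw [Finset.sum_mul_sum]
      refine Finset.sum_congr rfl fun i _ => Finset.sum_congr rfl fun j _ => ?_
      rw [map_mul, pow_add]; ring
    have e2 : T.th (T.mk' x) = ∑ i : Fin (m + 1), ((i : ℕ) : A) * (T.c (x i) * T.t ^ (i : ℕ)) := by
      unfold mk'
      rw [T.th_sum]
      exact Finset.sum_congr rfl fun i _ => T.th_mono _ _
    have e3 : T.th (T.mk' y) = ∑ i : Fin (m + 1), ((i : ℕ) : A) * (T.c (y i) * T.t ^ (i : ℕ)) := by
      unfold mk'
      rw [T.th_sum]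
      exact Finset.sum_congr rfl fun i _ => T.th_mono _ _
    rw [e1, T.th_sum, e2, e3]
    unfold mk'
    rw [Finset.sum_mul_sum, Finset.sum_mul_sum, ← Finset.sum_add_distrib]
    refine Finset.sum_congr rfl fun i _ => ?_
    rw [T.th_sum, ← Finset.sum_add_distrib]
    refine Finset.sum_congr rfl fun j _ => ?_
    rw [T.th_mono, map_mul, pow_add]
    push_cast
    ring
  have := key (T.co a) (T.co a')
  rwa [T.mk_co, T.mk_co] at this

/-- The last coefficient of the logarithmic derivative of a unit. -/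
noncomputable def dl (u : Aˣ) : B := T.co (T.th u * (u⁻¹ : Aˣ)) (Fin.last m)

theorem dl_mul (u v : Aˣ) : T.dl (u * v) = T.dl u + T.dl v := by
  unfold dl
  have e : T.th ((u * v : Aˣ) : A) * ((u * v)⁻¹ : Aˣ)
      = T.th u * (u⁻¹ : Aˣ) + T.th v * (v⁻¹ : Aˣ) := by
    rw [Units.val_mul, T.th_mul, mul_inv, Units.val_mul]
    have h1 : (u : A) * (u⁻¹ : Aˣ) = 1 := Units.mul_inv u
    have h2 : (v : A) * (v⁻¹ : Aˣ) = 1 := Units.mul_inv v
    calc (T.th u * v + u * T.th v) * ((u⁻¹ : Aˣ) * (v⁻¹ : Aˣ) : A)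
        = T.th u * (u⁻¹ : Aˣ) * ((v : A) * (v⁻¹ : Aˣ))
          + T.th v * (v⁻¹ : Aˣ) * ((u : A) * (u⁻¹ : Aˣ)) := by ring
      _ = _ := by rw [h1, h2, mul_one, mul_one]
  rw [e, T.co_add]; rfl

/-- The unit `1 + b t^m`, for `m ≥ 1`. -/
def iu (hm : 0 < m) (b : B) : Aˣ where
  val := 1 + T.c b * T.t ^ m
  inv := 1 - T.c b * T.t ^ m
  val_inv := by
    have h : T.t ^ m * T.t ^ m = 0 := by
      rw [← pow_add]; exact T.t_pow (by omega)
    linear_combination (- T.c b * T.c b) * h
  inv_val := by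
    have h : T.t ^ m * T.t ^ m = 0 := by
      rw [← pow_add]; exact T.t_pow (by omega)
    linear_combination (- T.c b * T.c b) * h

theorem iu_mul (hm : 0 < m) (b b' : B) : T.iu hm (b + b') = T.iu hm b * T.iu hm b' := by
  ext
  have h : T.t ^ m * T.t ^ m = 0 := by
    rw [← pow_add]; exact T.t_pow (by omega)
  simp only [iu, Units.val_mul, map_add]
  linear_combination (- T.c b * T.c b') * h

theorem dl_iu (hm : 0 < m) (b : B) : T.dl (T.iu hm b) = (m : B) * b := by
  unfold dl
  have h : T.t ^ m * T.t ^ m = 0 := by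
    rw [← pow_add]; exact T.t_pow (by omega)
  have e1 : T.th ((T.iu hm b : Aˣ) : A) = (m : A) * (T.c b * T.t ^ m) := by
    show T.th (1 + T.c b * T.t ^ m) = _
    rw [T.th_add, T.th_mono]
    have := T.th_mono 1 0
    simp only [map_one, pow_zero, mul_one, Nat.cast_zero] at this
    rw [this, zero_add]
  have e2 : T.th ((T.iu hm b : Aˣ) : A) * ((T.iu hm b)⁻¹ : Aˣ)
      = T.c ((m : B) * b) * T.t ^ ((Fin.last m : Fin (m + 1)) : ℕ) := by
    rw [e1]
    show (m : A) * (T.c b * T.t ^ m) * (1 - T.c b * T.t ^ m) = _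
    rw [map_mul, map_natCast, Fin.val_last]
    linear_combination (- (m : A) * T.c b * T.c b) * h
  rw [e2, T.co_mono, Pi.single_eq_same]

/-- Compatibility of the coefficients with a morphism of truncated rings. -/
theorem co_nat {B' A' : Type*} [CommRing B'] [CommRing A'] (T' : Trunc B' A' m)
    (β : B →+* B') (α : A →+* A') (hc : ∀ b, α (T.c b) = T'.c (β b)) (ht : α T.t = T'.t) (a : A)
    (i : Fin (m + 1)) : T'.co (α a) i = β (T.co a i) := by
  have : T'.co (α a) = fun i => β (T.co a i) := by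
    apply T'.mk_inj
    rw [T'.mk_co]
    conv_lhs => rw [← T.mk_co a]
    unfold mk'
    rw [map_sum]
    refine Finset.sum_congr rfl fun i _ => ?_
    rw [map_mul, map_pow, hc, ht]
  rw [this]

theorem th_nat {B' A' : Type*} [CommRing B'] [CommRing A'] (T' : Trunc B' A' m)
    (β : B →+* B') (α : A →+* A') (hc : ∀ b, α (T.c b) = T'.c (β b)) (ht : α T.t = T'.t)
    (a : A) : T'.th (α a) = α (T.th a) := by
  unfold th mk'
  rw [map_sum]
  refine Finset.sum_congr rfl fun i _ => ?_
  show T'.c (((i : ℕ) : B') * T'.co (α a) i) * T'.t ^ (i : ℕ)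
    = α (T.c (((i : ℕ) : B) * T.co a i) * T.t ^ (i : ℕ))
  rw [T.co_nat T' β α hc ht, map_mul α, map_pow, hc, ht, map_mul β, map_natCast]

theorem dl_nat {B' A' : Type*} [CommRing B'] [CommRing A'] (T' : Trunc B' A' m)
    (β : B →+* B') (α : A →+* A') (hc : ∀ b, α (T.c b) = T'.c (β b)) (ht : α T.t = T'.t)
    (u : Aˣ) : T'.dl (Units.map (α : A →* A') u) = β (T.dl u) := by
  unfold dl
  rw [← T.co_nat T' β α hc ht, map_mul, ← T.th_nat T' β α hc ht]
  rfl

end Trunc

end Pool.Agent.Helper64.OneCyc
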