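import Mathlib
import Pool.Agent.Helper64.OneCyc.Trunc

set_option autoImplicit false

open CategoryTheory CategoryTheory.Limits

universe u

namespace Pool.Agent.Helper64.OneCyc

/-- A base change of a ring with basis `1, s, …, s^m` has the same basis. -/
theorem bij_of_isPushout {K B S A : CommRingCat.{u}} {a : K ⟶ B} {g : K ⟶ S} {c : B ⟶ A}
    {b : S ⟶ A} (H : IsPushout a g c b) (m : ℕ) (s : S)
    (hb : Function.Bijective (fun x : Fin (m + 1) → K => ∑ i, g.hom (x i) * s ^ (i : ℕ))) :
    Function.Bijective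
      (fun x : Fin (m + 1) → B => ∑ i, c.hom (x i) * (b.hom s) ^ (i : ℕ)) := by
  let _ : Algebra K B := a.hom.toAlgebra
  let _ : Algebra K S := g.hom.toAlgebra
  let _ : Algebra B A := c.hom.toAlgebra
  let _ : Algebra S A := b.hom.toAlgebra
  let _ : Algebra K A := (a ≫ c).hom.toAlgebra
  have _ : IsScalarTower K B A := IsScalarTower.of_algebraMap_eq fun x => rfl
  have _ : IsScalarTower K S A := IsScalarTower.of_algebraMap_eq fun x => by
    show (a ≫ c).hom x = (g ≫ b).hom x
    rw [H.w]
  have hp : Algebra.IsPushout K B S A := CommRingCat.isPushout_iff_isPushout.mp H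
  -- the basis of S over K
  let e : (Fin (m + 1) → K) →ₗ[K] S :=
    { toFun := fun x => ∑ i, g.hom (x i) * s ^ (i : ℕ)
      map_add' := fun x y => by
        simp only [Pi.add_apply, map_add, add_mul, Finset.sum_add_distrib]
      map_smul' := fun r x => by
        simp only [Pi.smul_apply, smul_eq_mul, map_mul, RingHom.id_apply, Algebra.smul_def]
        rw [Finset.mul_sum]
        refine Finset.sum_congr rfl fun i _ => ?_
        show g.hom r * g.hom (x i) * s ^ (i : ℕ) = g.hom r * (g.hom (x i) * s ^ (i : ℕ))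
        ring }
  let E : (Fin (m + 1) → K) ≃ₗ[K] S := LinearEquiv.ofBijective e hb
  let bs : Module.Basis (Fin (m + 1)) K S := Module.Basis.ofEquivFun E.symm
  have hbs : ∀ i, bs i = s ^ (i : ℕ) := by
    intro i
    rw [Module.Basis.coe_ofEquivFun]
    show e (Pi.single i 1) = _
    show ∑ j, g.hom ((Pi.single i 1 : Fin (m + 1) → K) j) * s ^ (j : ℕ) = _
    rw [Finset.sum_eq_single i]
    · simp
    · intro j _ hj
      simp [Pi.single_eq_of_ne hj]
    · intro h; exact absurd (Finset.mem_univ _) h
  let bA : Module.Basis (Fin (m + 1)) B A := hp.out.basis bs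
  have hbA : ∀ i, bA i = (b.hom s) ^ (i : ℕ) := by
    intro i
    show hp.out.basis bs i = _
    rw [IsBaseChange.basis_apply, hbs]
    show b.hom (s ^ (i : ℕ)) = _
    rw [map_pow]
  have hfun : (fun x : Fin (m + 1) → B => ∑ i, c.hom (x i) * (b.hom s) ^ (i : ℕ))
      = bA.equivFun.symm := by
    funext x
    rw [Module.Basis.equivFun_symm_apply]
    refine Finset.sum_congr rfl fun i _ => ?_
    rw [hbA, Algebra.smul_def]
    rfl
  rw [hfun]
  exact bA.equivFun.symm.bijective

end Pool.Agent.Helper64.OneCyc
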