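import Mathlib
import Pool.Agent.Helper64.OneCyc.Defs
import Pool.Agent.Helper64.OneCyc.Push

set_option autoImplicit false

open AlgebraicGeometry CategoryTheory CategoryTheory.Limits Opposite TopologicalSpace

universe u

namespace Pool.Agent.Helper64.OneCyc

variable (k : Type u) [Field k]

/-- The class of `t` in `A/(tⁿ)`. -/
noncomputable def tt (n : ℕ) : ThickRing k n := Ideal.Quotient.mk _ PowerSeries.X

theorem tt_pow (n : ℕ) : (tt k n) ^ n = 0 := by
  unfold tt
  rw [← map_pow, Ideal.Quotient.eq_zero_iff_mem]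
  exact Ideal.mem_span_singleton_self _

theorem thickQuot_tt (n : ℕ) : thickQuot k n (tt k (n + 1)) = tt k n := rfl

theorem thick_bij (m : ℕ) : Function.Bijective (fun x : Fin (m + 1) → k =>
    ∑ i, (algebraMap k (ThickRing k (m + 1))) (x i) * (tt k (m + 1)) ^ (i : ℕ)) := by
  have hform : ∀ x : Fin (m + 1) → k,
      (∑ i, (algebraMap k (ThickRing k (m + 1))) (x i) * (tt k (m + 1)) ^ (i : ℕ))
        = Ideal.Quotient.mk _ (∑ i, PowerSeries.C (x i) * PowerSeries.X ^ (i : ℕ)) := by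
    intro x
    rw [map_sum]
    refine Finset.sum_congr rfl fun i _ => ?_
    rw [map_mul, map_pow]
    rfl
  have hcoeff : ∀ (x : Fin (m + 1) → k) (j : ℕ) (hj : j < m + 1),
      PowerSeries.coeff j (∑ i, PowerSeries.C (x i) * PowerSeries.X ^ (i : ℕ)) = x ⟨j, hj⟩ := by
    intro x j hj
    rw [map_sum, Finset.sum_eq_single ⟨j, hj⟩]
    · rw [PowerSeries.coeff_C_mul, PowerSeries.coeff_X_pow]; simp
    · intro i _ hi
      rw [PowerSeries.coeff_C_mul, PowerSeries.coeff_X_pow]
      have : j ≠ (i : ℕ) := fun h => hi (Fin.ext h.symm)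
      simp [this]
    · intro h; exact absurd (Finset.mem_univ _) h
  constructor
  · intro x y hxy
    simp only [hform] at hxy
    rw [Ideal.Quotient.eq, Ideal.mem_span_singleton, PowerSeries.X_pow_dvd_iff] at hxy
    funext j
    have := hxy j.1 j.2
    rw [map_sub, hcoeff x j.1 j.2, hcoeff y j.1 j.2, sub_eq_zero] at this
    exact this
  · intro a
    obtain ⟨a, rfl⟩ := Ideal.Quotient.mk_surjective a
    refine ⟨fun j => PowerSeries.coeff (j : ℕ) a, ?_⟩
    simp only [hform]
    rw [Ideal.Quotient.eq, Ideal.mem_span_singleton, PowerSeries.X_pow_dvd_iff]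
    intro j hj
    rw [map_sub, hcoeff _ j hj, sub_self]

variable {k} {C : Scheme.{u}} (f : C ⟶ Spec (CommRingCat.of k))

/-- The projection `Xₙ ⟶ Spec A/(tⁿ)`. -/
noncomputable def thickSnd (n : ℕ) : Thick f n ⟶ Spec (CommRingCat.of (ThickRing k n)) :=
  pullback.snd f (thickBase k n)

/-- The ring homomorphism `A/(tⁿ) → Γ(Xₙ, pr⁻¹ U)`. -/
noncomputable def ringHom (n : ℕ) (U : C.Opens) :
    CommRingCat.of (ThickRing k n) ⟶ Γ(Thick f n, thickFst f n ⁻¹ᵁ U) :=
  (Scheme.ΓSpecIso _).inv ≫ (thickSnd f n).appLE ⊤ (thickFst f n ⁻¹ᵁ U) (by simp)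

/-- The ring homomorphism `Γ(C, U) → Γ(Xₙ, pr⁻¹ U)`. -/
noncomputable def fstHom (n : ℕ) (U : C.Opens) :
    Γ(C, U) ⟶ Γ(Thick f n, thickFst f n ⁻¹ᵁ U) :=
  (thickFst f n).appLE U (thickFst f n ⁻¹ᵁ U) le_rfl

theorem isPushout_sec [IsNoetherian C] (n : ℕ) (U : C.Opens) :
    IsPushout ((Scheme.ΓSpecIso _).inv ≫ f.appLE ⊤ U (by simp))
      (CommRingCat.ofHom (algebraMap k (ThickRing k n))) (fstHom f n U) (ringHom f n U) := by
  have hflat : Flat (thickBase k n) := by
    unfold thickBase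
    rw [Flat.SpecMap_iff]
    show (algebraMap k (ThickRing k n)).Flat
    rw [RingHom.flat_algebraMap_iff]
    infer_instance
  have H : IsPullback (thickFst f n) (thickSnd f n) f (thickBase k n) :=
    IsPullback.of_hasPullback f (thickBase k n)
  have hcomp : IsCompact (U : Set C) := NoetherianSpace.isCompact _
  have hqs : IsQuasiSeparated (U : Set C) := by
    intro V W _ _ _ _ _ _
    exact NoetherianSpace.isCompact _
  have h1 := isIso_pushoutSection_of_isQuasiSeparated_of_flat_right H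
    (US := ⊤) (UT := ⊤) (UX := U) (UY := thickFst f n ⁻¹ᵁ U) (by simp) (by simp) (by simp)
    (isAffineOpen_top _) (isAffineOpen_top _) hcomp hqs
  have h2 := (isIso_pushoutSection_iff H (US := ⊤) (UT := ⊤) (UX := U)
    (UY := thickFst f n ⁻¹ᵁ U) (by simp) (by simp) (by simp)).mp h1
  refine h2.of_iso (Scheme.ΓSpecIso _) (Iso.refl _) (Scheme.ΓSpecIso _) (Iso.refl _) ?_ ?_ ?_ ?_
  · simp
  · have := Scheme.ΓSpecIso_naturality (CommRingCat.ofHom (algebraMap k (ThickRing k n)))
    rw [← this]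
    congr 1
  · simp [fstHom]
  · simp [ringHom]

end Pool.Agent.Helper64.OneCyc
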