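import Mathlib
import Pool.Agent.Helper64.OneCyc.Basis

set_option autoImplicit false

open AlgebraicGeometry CategoryTheory CategoryTheory.Limits Opposite TopologicalSpace

universe u

namespace Pool.Agent.Helper64.OneCyc

variable {k : Type u} [Field k] {C : Scheme.{u}} (f : C ⟶ Spec (CommRingCat.of k))
  [IsNoetherian C]

/-- Sections of the thickening over `U` form a truncated polynomial ring over `Γ(C, U)`. -/
noncomputable def tr (m : ℕ) (U : C.Opens) :
    Trunc Γ(C, U) Γ(Thick f (m + 1), thickFst f (m + 1) ⁻¹ᵁ U) m where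
  c := (fstHom f (m + 1) U).hom
  t := (ringHom f (m + 1) U).hom (tt k (m + 1))
  tz := by rw [← map_pow, tt_pow, map_zero]
  bij := bij_of_isPushout (isPushout_sec f (m + 1) U) m (tt k (m + 1)) (thick_bij k m)

omit [AlgebraicGeometry.IsNoetherian C] in
theorem fstHom_nat (n : ℕ) {U V : C.Opens} (i : V ⟶ U) :
    fstHom f n U ≫ (Thick f n).presheaf.map ((Opens.map (thickFst f n).base).map i).op
      = C.presheaf.map i.op ≫ fstHom f n V := by
  unfold fstHom
  rw [Scheme.Hom.map_appLE, Scheme.Hom.appLE_map]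

omit [AlgebraicGeometry.IsNoetherian C] in
theorem ringHom_nat (n : ℕ) {U V : C.Opens} (i : V ⟶ U) :
    ringHom f n U ≫ (Thick f n).presheaf.map ((Opens.map (thickFst f n).base).map i).op
      = ringHom f n V := by
  have h := Scheme.Hom.appLE_map (thickSnd f n) (U := ⊤) (V := thickFst f n ⁻¹ᵁ U)
    (show thickFst f n ⁻¹ᵁ U ≤ thickSnd f n ⁻¹ᵁ ⊤ by simp)
    (((Opens.map (thickFst f n).base).map i).op)
  exact (Category.assoc _ _ _).trans
    (congrArg (fun g => (Scheme.ΓSpecIso (CommRingCat.of (ThickRing k n))).inv ≫ g) h)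

theorem tr_c_nat (m : ℕ) {U V : C.Opens} (i : V ⟶ U) (b : Γ(C, U)) :
    ((Thick f (m + 1)).presheaf.map ((Opens.map (thickFst f (m + 1)).base).map i).op).hom
      ((tr f m U).c b) = (tr f m V).c ((C.presheaf.map i.op).hom b) :=
  congrArg (fun g => g.hom b) (fstHom_nat f (m + 1) i)

theorem tr_t_nat (m : ℕ) {U V : C.Opens} (i : V ⟶ U) :
    ((Thick f (m + 1)).presheaf.map ((Opens.map (thickFst f (m + 1)).base).map i).op).hom
      ((tr f m U).t) = (tr f m V).t :=
  congrArg (fun g => g.hom (tt k (m + 1))) (ringHom_nat f (m + 1) i)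

/-- The sheaf map `𝒪_C → 𝒪*_{X_{m+1}}`, `b ↦ 1 + b t^m`. -/
noncomputable def iota (m : ℕ) (hm : 0 < m) : addSheaf C ⟶ unitSheaf f (m + 1) where
  hom :=
    { app := fun U => AddCommGrpCat.ofHom
        (AddMonoidHom.mk' (fun b : Γ(C, U.unop) =>
          (Additive.ofMul ((tr f m U.unop).iu hm b) :
            Additive (Γ(Thick f (m + 1), thickFst f (m + 1) ⁻¹ᵁ U.unop))ˣ))
          (fun a b => congrArg Additive.ofMul ((tr f m U.unop).iu_mul hm a b)))
      naturality := fun U V i => by
        ext b
        apply Additive.toMul.injective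
        apply Units.ext
        have h1 := tr_c_nat f m i.unop b
        have h2 := tr_t_nat f m i.unop
        show 1 + (tr f m V.unop).c ((C.presheaf.map i).hom b) * (tr f m V.unop).t ^ m
          = ((Thick f (m + 1)).presheaf.map
            ((Opens.map (thickFst f (m + 1)).base).map i.unop).op).hom
            (1 + (tr f m U.unop).c b * (tr f m U.unop).t ^ m)
        rw [map_add, map_one, map_mul, map_pow, h1, h2]
        rfl }

/-- The sheaf map `𝒪*_{X_{m+1}} → 𝒪_C`, the last coefficient of the logarithmic derivative. -/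
noncomputable def dlog (m : ℕ) : unitSheaf f (m + 1) ⟶ addSheaf C where
  hom :=
    { app := fun U => AddCommGrpCat.ofHom
        (AddMonoidHom.mk' (fun u : Additive (Γ(Thick f (m + 1), thickFst f (m + 1) ⁻¹ᵁ U.unop))ˣ =>
          ((tr f m U.unop).dl (Additive.toMul u) : Γ(C, U.unop)))
          (fun a b => (tr f m U.unop).dl_mul (Additive.toMul a) (Additive.toMul b)))
      naturality := fun U V i => by
        ext u
        have h := (tr f m U.unop).dl_nat (tr f m V.unop) (C.presheaf.map i).hom
          ((Thick f (m + 1)).presheaf.map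
            ((Opens.map (thickFst f (m + 1)).base).map i.unop).op).hom
          (fun b => tr_c_nat f m i.unop b) (tr_t_nat f m i.unop) (Additive.toMul u)
        exact h }

theorem iota_dlog (m : ℕ) (hm : 0 < m) : iota f m hm ≫ dlog f m = m • 𝟙 (addSheaf C) := by
  apply Sheaf.hom_ext
  ext U b
  let b' : Γ(C, U.unop) := b
  have h : (tr f m U.unop).dl ((tr f m U.unop).iu hm b') = (m : Γ(C, U.unop)) * b' :=
    (tr f m U.unop).dl_iu hm b'
  exact h.trans (nsmul_eq_mul m b').symm

end Pool.Agent.Helper64.OneCyc
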