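import Mathlib
import Pool.Agent.Helper64.OneCyc.Maps

set_option autoImplicit false

open AlgebraicGeometry CategoryTheory CategoryTheory.Limits Opposite TopologicalSpace

universe u v

namespace Pool.Agent.Helper64.OneCyc

/-- An abstract computation used below. -/
theorem appLE_square {X Y : Scheme.{u}} {R S : CommRingCat.{u}} (i : X ⟶ Y) (φ : R ⟶ S)
    (sY : Y ⟶ Spec R) (sX : X ⟶ Spec S) (h : i ≫ sY = sX ≫ Spec.map φ)
    (V : Y.Opens) (W : X.Opens) (e : W ≤ i ⁻¹ᵁ V) (eY : V ≤ sY ⁻¹ᵁ ⊤) (eX : W ≤ sX ⁻¹ᵁ ⊤) :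
    ((Scheme.ΓSpecIso R).inv ≫ sY.appLE ⊤ V eY) ≫ i.appLE V W e
      = φ ≫ ((Scheme.ΓSpecIso S).inv ≫ sX.appLE ⊤ W eX) := by
  have h2 : sY.appLE ⊤ V eY ≫ i.appLE V W e = (i ≫ sY).appLE ⊤ W (by simp) := by
    rw [Scheme.Hom.appLE_comp_appLE]
  have h3 : (Spec.map φ).appTop ≫ sX.appLE ⊤ W eX = (sX ≫ Spec.map φ).appLE ⊤ W (by simp) :=
    (Scheme.Hom.comp_appLE _ _ _ _ _).symm
  have h5 := Scheme.ΓSpecIso_inv_naturality φ
  rw [Category.assoc, h2, ← Category.assoc φ, h5, Category.assoc, h3]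
  congr 1
  simp only [h]

variable {k : Type u} [Field k] {C : Scheme.{u}} (f : C ⟶ Spec (CommRingCat.of k))

theorem thickIncl_snd (n : ℕ) : thickIncl f n ≫ thickSnd f (n + 1)
    = thickSnd f n ≫ Spec.map (CommRingCat.ofHom (thickQuot k n)) :=
  pullback.lift_snd _ _ _

/-- Sections: the restriction to `Xₙ` is compatible with the coordinate rings of the bases. -/
theorem ringHom_incl (n : ℕ) (U : C.Opens)
    (e : thickFst f n ⁻¹ᵁ U ≤ thickIncl f n ⁻¹ᵁ (thickFst f (n + 1) ⁻¹ᵁ U)) :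
    ringHom f (n + 1) U ≫ (thickIncl f n).appLE _ _ e
      = CommRingCat.ofHom (thickQuot k n) ≫ ringHom f n U :=
  appLE_square (thickIncl f n) (CommRingCat.ofHom (thickQuot k n)) (thickSnd f (n + 1))
    (thickSnd f n) (thickIncl_snd f n) _ _ e (by simp) (by simp)

variable [AlgebraicGeometry.IsNoetherian C]

theorem iota_res (m : ℕ) (hm : 0 < m) : iota f m hm ≫ unitRes f m = 0 := by
  apply Sheaf.hom_ext
  ext U b
  let b' : Γ(C, U.unop) := b
  apply Additive.toMul.injective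
  apply Units.ext
  have e : thickFst f m ⁻¹ᵁ U.unop ≤ thickIncl f m ⁻¹ᵁ (thickFst f (m + 1) ⁻¹ᵁ U.unop) := by
    rw [← Scheme.Hom.comp_preimage, thickIncl_fst]
  have h1 : ((thickIncl f m).appLE _ _ e).hom ((tr f m U.unop).t) ^ m = 0 := by
    have h2 := congrArg (fun g => g.hom (tt k (m + 1))) (ringHom_incl f m U.unop e)
    have h3 : ((thickIncl f m).appLE _ _ e).hom ((tr f m U.unop).t)
        = (ringHom f m U.unop).hom (tt k m) := h2
    rw [h3, ← map_pow, tt_pow, map_zero]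
  show ((thickIncl f m).appLE _ _ e).hom (1 + (tr f m U.unop).c b' * (tr f m U.unop).t ^ m) = 1
  rw [map_add, map_one, map_mul, map_pow, h1, mul_zero, add_zero]

include f in
omit [AlgebraicGeometry.IsNoetherian C] in
theorem char_zero (p : ℕ) [CharP k p] : p • 𝟙 (addSheaf C) = 0 := by
  apply Sheaf.hom_ext
  ext U b
  let b' : Γ(C, U.unop) := b
  have h : (p : Γ(C, U.unop)) = 0 := by
    have h1 := map_natCast ((Scheme.ΓSpecIso (CommRingCat.of k)).inv
      ≫ f.appLE ⊤ U.unop (by simp)).hom p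
    rw [← h1]
    have : ((p : CommRingCat.of k)) = 0 := CharP.cast_eq_zero k p
    rw [this, map_zero]
  show p • b' = 0
  rw [nsmul_eq_mul, h, zero_mul]

omit [AlgebraicGeometry.IsNoetherian C] in
theorem hmap_zero {F F' : Sheaf (Opens.grothendieckTopology C) AddCommGrpCat.{u}}
    (x : Sheaf.H F 1) : Sheaf.H.map (0 : F ⟶ F') 1 x = 0 := by
  have := Sheaf.H.map_add_apply (0 : F ⟶ F') 0 x
  rw [add_zero] at this
  exact left_eq_add.mp this

omit [AlgebraicGeometry.IsNoetherian C] in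
theorem hmap_nsmul {F F' : Sheaf (Opens.grothendieckTopology C) AddCommGrpCat.{u}} (g : F ⟶ F')
    (n : ℕ) (x : Sheaf.H F 1) : Sheaf.H.map (n • g) 1 x = n • Sheaf.H.map g 1 x := by
  induction n with
  | zero => rw [zero_smul, zero_smul]; exact hmap_zero x
  | succ n ih => rw [succ_nsmul, Sheaf.H.map_add_apply, ih, succ_nsmul]

include f in
omit [AlgebraicGeometry.IsNoetherian C] in
theorem char_H (p : ℕ) [CharP k p] (x : HOne C) : p • x = 0 := by
  have h := hmap_nsmul (𝟙 (addSheaf C)) p x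
  rw [char_zero f p, Sheaf.H.map_id_apply] at h
  rw [← h]
  exact hmap_zero x

/-- The key fact: for `p ∤ m` and `a ≠ 0` the class of `1 + a t^m` is not divisible by `p`. -/
theorem key_class (p : ℕ) [hp : Fact p.Prime] [CharP k p] (a : HOne C) (ha : a ≠ 0) (m : ℕ)
    (hm : 0 < m) (hpm : ¬ p ∣ m) : ∃ α : HUnits f (m + 1), hRes f m α = 0 ∧
      ∀ β : HUnits f (m + 1), p • β ≠ α := by
  refine ⟨Sheaf.H.map (iota f m hm) 1 a, ?_, ?_⟩
  · show Sheaf.H.map (unitRes f m) 1 (Sheaf.H.map (iota f m hm) 1 a) = 0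
    rw [← Sheaf.H.map_comp_apply, iota_res]
    exact hmap_zero a
  · intro β hβ
    have h1 : Sheaf.H.map (dlog f m) 1 (Sheaf.H.map (iota f m hm) 1 a) = m • a := by
      rw [← Sheaf.H.map_comp_apply, iota_dlog, hmap_nsmul, Sheaf.H.map_id_apply]
    rw [← hβ, map_nsmul, char_H f p] at h1
    -- m • a = 0 and p • a = 0, gcd = 1
    have h2 : addOrderOf a ∣ m := addOrderOf_dvd_of_nsmul_eq_zero h1.symm
    have h3 : addOrderOf a ∣ p := addOrderOf_dvd_of_nsmul_eq_zero (char_H f p a)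
    rcases (Nat.dvd_prime hp.out).mp h3 with h4 | h4
    · exact ha (AddMonoid.addOrderOf_eq_one_iff.mp h4)
    · rw [h4] at h2; exact hpm h2

end Pool.Agent.Helper64.OneCyc
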